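import Pool.Agent.Helper45.LGB.St2

set_option autoImplicit false

/-!
Project LGB, module BAL: balls in the non-commuting graph.
-/

namespace Pool.Agent.Helper34.LGB

open Pool.Agent.Helper45.LGB Pool.Agent.Helper83.RB

open scoped commutatorElement

private lemma ball_of_nr {G : Type} [Group G] (X : Set G) (n : ℕ) (x : ↥X) :
    ∀ y : ↥X, nr (NC X) n x y → (y : G) ∈ Ball X (x : G) n := by
  induction n with
  | zero =>
    intro y h
    have h' : x = y := h
    rw [h']
    exact rfl
  | succ n ih =>
    rintro y ⟨c, hc, h⟩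
    refine ⟨c, ih c hc, ?_⟩
    rcases h with h | h
    · exact Or.inl (congrArg Subtype.val h)
    · exact Or.inr ⟨y.2, h⟩

private lemma ball_sub {G : Type} [Group G] (X : Set G) (n : ℕ) (x : G) (hx : x ∈ X) :
    Ball X x n ⊆ X := by
  induction n with
  | zero =>
    rintro y rfl
    exact hx
  | succ n ih =>
    rintro y ⟨z, hz, h⟩
    rcases h with rfl | h
    · exact ih hz
    · exact h.1

private lemma ball_self {G : Type} [Group G] (X : Set G) (n : ℕ) (x : G) : x ∈ Ball X x n := by
  induction n with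
  | zero => exact rfl
  | succ n ih => exact ⟨x, ih, Or.inl rfl⟩

/-- the closed neighbourhood of a vertex -/
private def nb {G : Type} [Group G] (X : Set G) (z : G) : Set G :=
  insert z {y | y ∈ X ∧ z * y ≠ y * z}

open Classical in
/-- the closed neighbourhood as a `Finset` -/
private noncomputable def nf {G : Type} [Group G] (X : Set G) (z : G) : Finset G :=
  if h : (nb X z).Finite then h.toFinset else ∅

open Classical in
private lemma ball_card {G : Type} [Group G] (X : Set G) (Δ n : ℕ) (x : G) (hx : x ∈ X)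
    (h : ∀ z ∈ X, {y | y ∈ X ∧ z * y ≠ y * z}.Finite ∧
      {y | y ∈ X ∧ z * y ≠ y * z}.ncard ≤ Δ) :
    (Ball X x n).Finite ∧ (Ball X x n).ncard ≤ (Δ + 1) ^ n := by
  have hf : ∀ z ∈ X, (nb X z).Finite := fun z hz => (h z hz).1.insert z
  have hn : ∀ z ∈ X, (nf X z).card ≤ Δ + 1 := by
    intro z hz
    unfold nf
    rw [dif_pos (hf z hz), ← Set.ncard_eq_toFinset_card (nb X z) (hf z hz)]
    exact (Set.ncard_insert_le z _).trans (Nat.add_le_add_right (h z hz).2 1)
  induction n with
  | zero =>
    refine ⟨Set.finite_singleton x, ?_⟩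
    show ({x} : Set G).ncard ≤ (Δ + 1) ^ 0
    rw [Set.ncard_singleton, pow_zero]
  | succ n ih =>
    obtain ⟨h1, h2⟩ := ih
    have hsub : Ball X x (n + 1) ⊆ ((h1.toFinset.biUnion (nf X) : Finset G) : Set G) := by
      rintro y ⟨z, hz, hy⟩
      have hzX : z ∈ X := ball_sub X n x hx hz
      rw [Finset.mem_coe, Finset.mem_biUnion]
      refine ⟨z, h1.mem_toFinset.2 hz, ?_⟩
      unfold nf
      rw [dif_pos (hf z hzX), Set.Finite.mem_toFinset]
      rcases hy with rfl | hy
      · exact Set.mem_insert _ _
      · exact Set.mem_insert_of_mem _ hy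
    refine ⟨(Finset.finite_toSet _).subset hsub, ?_⟩
    refine (Set.ncard_le_ncard hsub (Finset.finite_toSet _)).trans ?_
    rw [Set.ncard_coe_finset]
    refine (Finset.card_biUnion_le_card_mul _ _ (Δ + 1) ?_).trans ?_
    · intro z hz
      exact hn z (ball_sub X n x hx (h1.mem_toFinset.1 hz))
    · rw [← Set.ncard_eq_toFinset_card (Ball X x n) h1, pow_succ]
      exact Nat.mul_le_mul_right _ h2

/-- BAL: balls in the non-commuting graph -/
theorem hBAL : StBAL := by
  intro G _ X
  exact ⟨fun n x y h => ball_of_nr X n x y h, fun n x hx => ball_sub X n x hx,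
    fun n x => ball_self X n x, fun Δ n x hx h => ball_card X Δ n x hx h⟩

end Pool.Agent.Helper34.LGB
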