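import Pool.Agent.Helper45.LGB.St2

set_option autoImplicit false

/-!
Project LGB, module MLS: symmetrised products are multilinear.
-/

namespace Pool.Agent.Helper34.LGB

open Pool.Agent.Helper45.LGB Pool.Agent.Helper83.RB

open scoped commutatorElement

/-- the symmetrised product as a multilinear map -/
private noncomputable def symP (A : Type) [Ring A] (n : ℕ) :
    MultilinearMap ℤ (fun _ : Fin n => A) A :=
  ∑ σ : Equiv.Perm (Fin n), (MultilinearMap.mkPiAlgebraFin ℤ n A).domDomCongr σ

private lemma symP_apply (A : Type) [Ring A] (n : ℕ) (l : Fin n → A) :
    symP A n l = ∑ σ : Equiv.Perm (Fin n), (List.ofFn fun i => l (σ i)).prod := by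
  unfold symP
  rw [sum_apply]
  refine Finset.sum_congr rfl fun σ _ => ?_
  rw [MultilinearMap.domDomCongr_apply, MultilinearMap.mkPiAlgebraFin_apply]

/-- MLS: a symmetrised product which vanishes on a set vanishes on the additive group generated by it -/
theorem hMLS : StMLS := by
  intro A _ n S hS l hl
  have key : ∀ s : Finset (Fin n), ∀ l : Fin n → A, (∀ i ∈ s, l i ∈ AddSubgroup.closure S) →
      (∀ i, i ∉ s → l i ∈ S) → symP A n l = 0 := by
    intro s
    induction s using Finset.induction_on with
    | empty =>
      intro l _ h2
      rw [symP_apply]
      exact hS l fun i => h2 i (Finset.notMem_empty i)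
    | insert j s hj ih =>
      intro l h1 h2
      have h3 : ∀ x ∈ AddSubgroup.closure S, symP A n (Function.update l j x) = 0 := by
        intro x hx
        induction hx using AddSubgroup.closure_induction with
        | mem x hx =>
          refine ih _ ?_ ?_
          · intro i hi
            have hij : i ≠ j := fun e => hj (e ▸ hi)
            rw [Function.update_of_ne hij]
            exact h1 i (Finset.mem_insert_of_mem hi)
          · intro i hi
            by_cases hij : i = j
            · subst hij
              rw [Function.update_self]
              exact hx
            · rw [Function.update_of_ne hij]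
              exact h2 i fun e => (Finset.mem_insert.1 e).elim hij hi
        | zero => exact (symP A n).map_update_zero l j
        | add x y _ _ hx hy => rw [(symP A n).map_update_add, hx, hy, add_zero]
        | neg x _ hx => rw [(symP A n).map_update_neg, hx, neg_zero]
      have h4 := h3 (l j) (h1 j (Finset.mem_insert_self j s))
      rwa [Function.update_eq_self] at h4
  rw [← symP_apply]
  exact key Finset.univ l (fun i _ => hl i) fun i hi => (hi (Finset.mem_univ i)).elim

end Pool.Agent.Helper34.LGB
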